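import Pool.Agent.H95.Embed

set_option autoImplicit false
open Pool.Agent.H95.EmbedDefs

universe u

theorem Pool.Agent.Results.MP_d5c8f2_an.NotEmb.result
    (H : Type u) [NormedAddCommGroup H] [InnerProductSpace ℂ H] [CompleteSpace H]
    (hH : ¬ FiniteDimensional ℂ H) :
    ∃ T : H →L[ℂ] H, IsPI T ∧ KerInf T ∧ CokerInf T ∧ ¬ Embeddable T :=
  Pool.Agent.H95.Embed.main hH
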